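import Pool.Agent.H56.KAF.Stmts

/-!
# Values of positions and directions
-/

set_option autoImplicit false

namespace Pool.KAF

open Finset Real
open Pool.Agent.H49.Ent Pool.Agent.H32.Dense Pool.STK

namespace VAL

/-- The integers in `[0, 2 ^ n)`, as a finite set of vectors. -/
noncomputable def bx (m n : ℕ) : Finset (Fin m → ℤ) := Fintype.piFinset fun _ => Finset.Ico (0 : ℤ) (2 ^ n)

theorem card_bx (m n : ℕ) : (bx m n).card = 2 ^ (m * n) := by
  have h : (Finset.Ico (0 : ℤ) (2 ^ n)).card = 2 ^ n := by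
    rw [Int.card_Ico, sub_zero]
    have : ((2 : ℤ) ^ n) = ((2 ^ n : ℕ) : ℤ) := by push_cast; rfl
    rw [this, Int.toNat_natCast]
  rw [bx, Fintype.card_piFinset]
  simp only [h, Finset.prod_const, Finset.card_univ, Fintype.card_fin]
  rw [← pow_mul, Nat.mul_comm]

theorem floor_floor (r s : ℕ) (h : r ≤ s) (x : ℝ) :
    ⌊(2 : ℝ) ^ r * x⌋ = ⌊(2 : ℝ) ^ s * x⌋ / (2 ^ (s - r) : ℤ) := by
  have e : (2 : ℝ) ^ r * x = (2 : ℝ) ^ s * x / ((2 ^ (s - r) : ℕ) : ℝ) := by
    push_cast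
    rw [eq_div_iff (by positivity)]
    have : (2 : ℝ) ^ s = 2 ^ r * 2 ^ (s - r) := by rw [← pow_add, Nat.add_sub_cancel' h]
    rw [this]; ring
  rw [e, Int.floor_div_natCast]
  push_cast
  rfl

end VAL

open VAL in
theorem val_thm : VALStmt := by
  intro m J Ω _ p u d t hF
  refine ⟨fun r => ⟨bx m (r + 1) ×ˢ Finset.range (2 ^ J), fun ω => ?_, ?_⟩,
    ⟨bx m J, fun ω => ?_, card_bx m J⟩, fun r s hrs =>
      ⟨fun a i => a i / (2 ^ (s - r) : ℤ), fun ω => ?_⟩⟩
  · have ht : (t ω : ℝ) / 2 ^ J < 1 := by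
      rw [div_lt_one (by positivity)]
      exact_mod_cast hF.t_lt ω
    have ht0 : 0 ≤ (t ω : ℝ) / 2 ^ J := by positivity
    rw [Finset.mem_product, Finset.mem_range]
    refine ⟨?_, hF.t_lt ω⟩
    rw [bx, Fintype.mem_piFinset]
    intro i
    have hu := hF.u_nonneg ω i
    have hu1 := hF.u_lt ω i
    have hd := hF.d_nonneg ω i
    have hd1 := hF.d_lt ω i
    have h1 : (t ω : ℝ) / 2 ^ J * d ω i < 1 := by nlinarith
    have h0 : 0 ≤ (t ω : ℝ) / 2 ^ J * d ω i := mul_nonneg ht0 hd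
    rw [Finset.mem_Ico]
    constructor
    · change (0 : ℤ) ≤ ⌊(2 : ℝ) ^ r * (u ω i + (t ω : ℝ) / 2 ^ J * d ω i)⌋
      apply Int.floor_nonneg.2
      positivity
    · change ⌊(2 : ℝ) ^ r * (u ω i + (t ω : ℝ) / 2 ^ J * d ω i)⌋ < (2 : ℤ) ^ (r + 1)
      apply Int.floor_lt.2
      push_cast
      rw [pow_succ]
      have : (0 : ℝ) < 2 ^ r := by positivity
      nlinarith
  · rw [Finset.card_product, card_bx, Finset.card_range, pow_add]
  · rw [bx, Fintype.mem_piFinset]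
    intro i
    have hd := hF.d_nonneg ω i
    have hd1 := hF.d_lt ω i
    rw [Finset.mem_Ico]
    constructor
    · change (0 : ℤ) ≤ ⌊(2 : ℝ) ^ J * d ω i⌋
      apply Int.floor_nonneg.2
      positivity
    · change ⌊(2 : ℝ) ^ J * d ω i⌋ < (2 : ℤ) ^ J
      apply Int.floor_lt.2
      push_cast
      have : (0 : ℝ) < 2 ^ J := by positivity
      nlinarith
  · funext i
    exact floor_floor r s hrs _

end Pool.KAF
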